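import Pool.Agent.MP_0e9fac_pr.Mg.Critical

/-! Two-type annihilating random walks from a Bernoulli colouring: both colours visit the origin
infinitely often exactly in the balanced case. -/

set_option autoImplicit false
open MeasureTheory Filter Pool.Agent.MP_0e9fac_pr

namespace Pool.Agent.Results.MP_0e9fac_pr.BothColours

theorem result (d : ℕ) (hd : 1 ≤ d) (p : unitInterval) (pr : Site d → ℝ)
    (hpr : Function.Injective pr) :
    IsProbabilityMeasure (law d p) ∧ (∀ᵐ ω ∂law d p, Stabilises pr ω) ∧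
    ((p : ℝ) = 1 / 2 →
      ∀ᵐ ω ∂law d p, VisitsInfinitelyOften pr ω true ∧ VisitsInfinitelyOften pr ω false) ∧
    (1 / 2 < (p : ℝ) →
      (∀ᵐ ω ∂law d p, ¬ VisitsInfinitelyOften pr ω false) ∧
      ¬ ∀ᵐ ω ∂law d p, VisitsInfinitelyOften pr ω true ∧ VisitsInfinitelyOften pr ω false) := by
  have : NeZero d := ⟨by omega⟩
  let P : Prio d := ⟨pr, hpr⟩
  refine ⟨inferInstance, ae_stabilises p,
    fun hp => (ae_visits hp true).and (ae_visits hp false), fun hp => ?_⟩
  have h := not_visits_of_summable (d := d) p false (summable_minority p hp)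
  refine ⟨h, fun h2 => ?_⟩
  obtain ⟨ω, a, b⟩ := (h.and h2).exists
  exact a b.2

end Pool.Agent.Results.MP_0e9fac_pr.BothColours
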